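import Mathlib

/-!
# Circles of Poncelet triangles

Let `E` be the image of the unit circle under `z ↦ c₀ + A z + B z̄` and let `E'` be the image of
`{c + α w + β w̄ : |w| = 1}` under the same map. If `z₁, z₂, z₃` are the parameters of a triangle inscribed
in `E` and circumscribed about `E'` and `λ = z₁ z₂ z₃` then `z₁ + z₂ + z₃ = s + λ m̄` and
`z₁ z₂ + z₁ z₃ + z₂ z₃ = m + λ s̄` with `s = 2 c` and `m = c ^ 2 - 4 α β`. The powers of a point with respect
to the circumcircle and to the Euler circle turn out to be affine functions of `λ` and `λ̄`.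
-/

set_option autoImplicit false

open Complex ComplexConjugate Set

namespace Pool.Agent.Results.MP_d21a88_gt.PonceletPower

/-- The ellipse `{c + a z + b z̄ : |z| = 1}` with centre `c`; it is the image of the unit circle under an
invertible real affine map of the plane if `|a| ≠ |b|`. -/
def ellipse (c a b : ℂ) : Set ℂ := {p | ∃ z : ℂ, ‖z‖ = 1 ∧ p = c + a * z + b * conj z}

/-- The open region bounded by `ellipse c a b`. -/
def inside (c a b : ℂ) : Set ℂ := {p | ∃ z : ℂ, ‖z‖ < 1 ∧ p = c + a * z + b * conj z}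

/-- `P` is a (nondegenerate) triangle with vertices on `E` whose sides are tangent to the ellipse `E'`: the
line through two vertices meets `E'` in exactly one point. -/
structure Periodic (E E' : Set ℂ) (P : Fin 3 → ℂ) : Prop where
  mem : ∀ i, P i ∈ E
  indep : AffineIndependent ℝ P
  tangent : ∀ i j, i ≠ j → ∃! x : ℂ, x ∈ E' ∧ x ∈ line[ℝ, P i, P j]

/-- The circle with centre `O` and radius `r` is the circumcircle of `P`. -/
def IsCircumcircle (P : Fin 3 → ℂ) (O : ℂ) (r : ℝ) : Prop := ∀ i, dist (P i) O = r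

/-- The circle with centre `N` and radius `r` is the Euler circle of `P`: it passes through the midpoints
of the sides. -/
def IsEulerCircle (P : Fin 3 → ℂ) (N : ℂ) (r : ℝ) : Prop :=
  ∀ i j, i ≠ j → dist (midpoint ℝ (P i) (P j)) N = r

/-- The power of the point `X` with respect to the circle with centre `O` and radius `r`. -/
noncomputable def power (X O : ℂ) (r : ℝ) : ℝ := dist X O ^ 2 - r ^ 2

/-! ### Basic lemmas -/

lemma unimod {z : ℂ} (h : ‖z‖ = 1) : z * conj z = 1 := by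
  rw [mul_conj, normSq_eq_norm_sq, h]; simp

lemma norm_of_unimod {z : ℂ} (h : z * conj z = 1) : ‖z‖ = 1 := by
  have h1 : ((‖z‖ ^ 2 : ℝ) : ℂ) = 1 := by
    rw [← normSq_eq_norm_sq, ← mul_conj, h]
  have h2 : ‖z‖ ^ 2 = 1 := by exact_mod_cast h1
  exact (pow_eq_one_iff_of_nonneg (norm_nonneg _) two_ne_zero).1 h2

lemma L_inj {A B z w : ℂ} (hAB : ‖A‖ ≠ ‖B‖) (h : A * z + B * conj z = A * w + B * conj w) : z = w := by
  by_contra hne
  have h1 : A * (z - w) = -(B * conj (z - w)) := by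
    rw [map_sub]; linear_combination h
  have h2 : ‖A‖ * ‖z - w‖ = ‖B‖ * ‖z - w‖ := by
    rw [← norm_mul, h1, norm_neg, norm_mul, norm_conj]
  exact hAB (mul_right_cancel₀ (norm_ne_zero_iff.2 (sub_ne_zero.2 hne)) h2)

/-- Points of a chord. -/
lemma mem_line_iff {c A B z w x : ℂ} (hAB : ‖A‖ ≠ ‖B‖) (hz : z * conj z = 1) (hw : w * conj w = 1)
    (hne : z ≠ w) :
    c + A * x + B * conj x ∈ line[ℝ, c + A * z + B * conj z, c + A * w + B * conj w] ↔
      x + z * w * conj x = z + w := by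
  constructor
  · intro h
    obtain ⟨t, ht⟩ := mem_affineSpan_pair_iff_exists_lineMap_eq.1 h
    rw [AffineMap.lineMap_apply] at ht
    have h1 : A * x + B * conj x = A * (z + t * (w - z)) + B * conj (z + t * (w - z)) := by
      simp only [vsub_eq_sub, vadd_eq_add, real_smul] at ht
      simp only [map_add, map_mul, map_sub, conj_ofReal]
      linear_combination -ht
    have h2 := L_inj hAB h1
    rw [h2]
    simp only [map_add, map_mul, map_sub, conj_ofReal]
    linear_combination w * (1 - t) * hz + z * t * hw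
  · intro h
    have hne' : w - z ≠ 0 := sub_ne_zero.2 hne.symm
    set t := (x - z) / (w - z) with ht
    have hz0 : z ≠ 0 := by rintro rfl; simp at hz
    have hw0 : w ≠ 0 := by rintro rfl; simp at hw
    have hreal : conj t = t := by
      rw [ht, map_div₀, map_sub, map_sub]
      have e1 : conj z = z⁻¹ := eq_inv_of_mul_eq_one_right hz
      have e2 : conj w = w⁻¹ := eq_inv_of_mul_eq_one_right hw
      have e3 : conj x = (z + w - x) / (z * w) := by
        rw [eq_div_iff (mul_ne_zero hz0 hw0)]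
        linear_combination h
      rw [e1, e2, e3]
      have hne2 : w⁻¹ - z⁻¹ ≠ 0 := by
        rw [sub_ne_zero]
        intro h3
        exact hne (inv_injective h3.symm)
      rw [div_eq_div_iff hne2 hne']
      field_simp
      ring
    obtain ⟨r, hr⟩ := conj_eq_iff_real.1 hreal
    rw [mem_affineSpan_pair_iff_exists_lineMap_eq]
    refine ⟨r, ?_⟩
    rw [AffineMap.lineMap_apply]
    simp only [vsub_eq_sub, vadd_eq_add, real_smul]
    have hx : x = z + t * (w - z) := by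
      rw [ht]; field_simp; ring
    rw [← hr, hx]
    have : conj (z + t * (w - z)) = conj z + t * (conj w - conj z) := by
      rw [map_add, map_mul, map_sub, hreal]
    rw [this]
    ring

/-- A quadratic equation on the unit circle. -/
lemma unique_iff {G K u : ℂ} (hG : G ≠ 0) (hu : u * conj u = 1) (hK : K = u * conj K) :
    (∃! w : ℂ, w * conj w = 1 ∧ G * w + u * conj G * conj w = K) ↔ K ^ 2 = 4 * G * (u * conj G) := by
  have hGc : conj G ≠ 0 := (map_ne_zero _).2 hG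
  have hu0 : u ≠ 0 := by rintro rfl; simp at hu
  have huc : conj u ≠ 0 := (map_ne_zero _).2 hu0
  have hK2 : conj K = conj u * K := by
    have := congrArg conj hK
    rwa [map_mul, conj_conj] at this
  constructor
  · rintro ⟨w, ⟨hw1, hw2⟩, huniq⟩
    have hw0 : w ≠ 0 := by rintro rfl; simp at hw1
    -- the other root
    have hv : ∀ v : ℂ, v = u * conj G / (G * w) → v * conj v = 1 ∧ G * v + u * conj G * conj v = K := by
      intro v hv
      have hwc : conj w = w⁻¹ := eq_inv_of_mul_eq_one_right hw1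
      have huc' : conj u = u⁻¹ := eq_inv_of_mul_eq_one_right hu
      have hvc : conj v = G * w / (u * conj G) := by
        rw [hv, map_div₀, map_mul, map_mul, conj_conj, hwc, huc']
        field_simp
      have h1 : v * conj v = 1 := by
        rw [hvc, hv]; field_simp
      refine ⟨h1, ?_⟩
      rw [hvc, hv, ← hw2, hwc]
      field_simp
      ring
    obtain ⟨h1, h2⟩ := hv _ rfl
    have h3 := huniq _ ⟨h1, h2⟩
    have h4 : u * conj G = G * w * w := by
      rw [div_eq_iff (mul_ne_zero hG hw0)] at h3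
      linear_combination h3
    have hwc : w * conj w = 1 := hw1
    rw [← hw2, h4]
    linear_combination (2 * G ^ 2 * w ^ 2 + G ^ 2 * w ^ 2 * (w * conj w + 1)) * hw1
  · intro h
    have hroot : ∀ w : ℂ, w * conj w = 1 → (G * w + u * conj G * conj w = K ↔ w = K / (2 * G)) := by
      intro w hw
      have hw0 : w ≠ 0 := by rintro rfl; simp at hw
      rw [eq_div_iff (by simp [hG])]
      constructor
      · intro h1
        have h2 : (w * (2 * G) - K) ^ 2 = 0 := by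
          linear_combination h + 4 * G * w * h1 - 4 * G * (u * conj G) * hw
        exact sub_eq_zero.1 (pow_eq_zero_iff two_ne_zero |>.1 h2)
      · intro h1
        have h2 : w * (G * w + u * conj G * conj w) = w * K := by
          have h3 : 4 * G * (w * (G * w + u * conj G * conj w) - w * K) = 0 := by
            linear_combination (w * (2 * G) - K) * h1 + 4 * G * (u * conj G) * hw - h
          have h4 := (mul_eq_zero.1 h3).resolve_left (by simp [hG])
          exact sub_eq_zero.1 h4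
        exact mul_left_cancel₀ hw0 h2
    have hmod : K / (2 * G) * conj (K / (2 * G)) = 1 := by
      rw [map_div₀, map_mul, hK2, div_mul_div_comm, div_eq_one_iff_eq (by
        simp [hG])]
      have : conj (2 : ℂ) = 2 := by
        have := conj_ofReal 2
        simpa using this
      rw [this]
      linear_combination conj u * h + 4 * G * conj G * hu
    refine ⟨K / (2 * G), ⟨hmod, (hroot _ hmod).2 rfl⟩, ?_⟩
    rintro w ⟨hw1, hw2⟩
    exact (hroot w hw1).1 hw2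

/-! ### The normalised pair -/

/-- The point of the plane with the coordinate `ζ`. -/
noncomputable def pt (c₀ A B ζ : ℂ) : ℂ := c₀ + A * ζ + B * conj ζ

lemma pt_inj {c₀ A B z w : ℂ} (hAB : ‖A‖ ≠ ‖B‖) (h : pt c₀ A B z = pt c₀ A B w) : z = w := by
  unfold pt at h
  exact L_inj (A := A) (B := B) hAB (by linear_combination h)

/-- The inner ellipse: the image of `{c + α w + β w̄ : |w| = 1}`. -/
noncomputable def inner (c₀ A B c α β : ℂ) : Set ℂ :=
  ellipse (c₀ + A * c + B * conj c) (A * α + B * conj β) (A * β + B * conj α)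

lemma mem_inner {c₀ A B c α β x : ℂ} :
    x ∈ inner c₀ A B c α β ↔ ∃ w : ℂ, ‖w‖ = 1 ∧ x = pt c₀ A B (c + α * w + β * conj w) := by
  unfold inner ellipse pt
  simp only [mem_ofPred_eq, map_add, map_mul, conj_conj]
  constructor
  · rintro ⟨w, hw, rfl⟩
    exact ⟨w, hw, by ring⟩
  · rintro ⟨w, hw, rfl⟩
    exact ⟨w, hw, by ring⟩

lemma existsUnique_image {ι κ : Type} {f : ι → κ} (hf : Function.Injective f) {p : ι → Prop}
    {q : κ → Prop} : (∃! x, (∃ w, p w ∧ x = f w) ∧ q x) ↔ ∃! w, p w ∧ q (f w) := by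
  constructor
  · rintro ⟨x, ⟨⟨w, hw, rfl⟩, hq⟩, hu⟩
    refine ⟨w, ⟨hw, hq⟩, ?_⟩
    rintro v ⟨hv, hqv⟩
    exact hf (hu (f v) ⟨⟨v, hv, rfl⟩, hqv⟩)
  · rintro ⟨w, ⟨hw, hq⟩, hu⟩
    refine ⟨f w, ⟨⟨w, hw, rfl⟩, hq⟩, ?_⟩
    rintro _ ⟨⟨v, hv, rfl⟩, hqv⟩
    rw [hu v ⟨hv, hqv⟩]

/-- The condition of tangency of a chord. -/
lemma tangent_iff {c₀ A B c α β z w : ℂ} (hAB : ‖A‖ ≠ ‖B‖) (hαβ : ‖α‖ ≠ ‖β‖)
    (hz : z * conj z = 1) (hw : w * conj w = 1) (hne : z ≠ w) :
    (∃! x : ℂ, x ∈ inner c₀ A B c α β ∧ x ∈ line[ℝ, pt c₀ A B z, pt c₀ A B w]) ↔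
      (z + w - c - z * w * conj c) ^ 2 =
        4 * (α + z * w * conj β) * (β + z * w * conj α) := by
  have hinj : Function.Injective fun v : ℂ => pt c₀ A B (c + α * v + β * conj v) := by
    intro v v' h
    have h1 := pt_inj hAB h
    exact L_inj (A := α) (B := β) hαβ (by linear_combination h1)
  have hu : (z * w) * conj (z * w) = 1 := by
    rw [map_mul]; linear_combination (w * conj w) * hz + hw
  have hG : α + z * w * conj β ≠ 0 := by
    intro h
    apply hαβ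
    have h1 : α = -(z * w * conj β) := by linear_combination h
    rw [h1, norm_neg, norm_mul, norm_of_unimod hu, one_mul, norm_conj]
  have hH : (z * w) * conj (α + z * w * conj β) = β + z * w * conj α := by
    rw [map_add, map_mul, map_mul, conj_conj]
    rw [map_mul] at hu
    linear_combination β * hu
  have hK : z + w - c - z * w * conj c = (z * w) * conj (z + w - c - z * w * conj c) := by
    rw [map_mul] at hu
    simp only [map_add, map_sub, map_mul, conj_conj]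
    linear_combination c * hu - w * hz - z * hw
  have key := unique_iff hG hu hK
  rw [hH] at key
  rw [← key]
  simp only [mem_inner]
  rw [existsUnique_image hinj]
  refine existsUnique_congr fun v => ?_
  constructor
  · rintro ⟨h1, h2⟩
    refine ⟨unimod h1, ?_⟩
    have h3 := (mem_line_iff (c := c₀) (x := c + α * v + β * conj v) hAB hz hw hne).1 h2
    simp only [map_add, map_mul, conj_conj] at h3
    linear_combination h3
  · rintro ⟨h1, h2⟩
    refine ⟨norm_of_unimod h1, ?_⟩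
    refine (mem_line_iff (c := c₀) (x := c + α * v + β * conj v) hAB hz hw hne).2 ?_
    simp only [map_add, map_mul, conj_conj]
    linear_combination h2

/-- A quadratic polynomial with three roots. -/
lemma three_roots {a b c x y z : ℂ} (hxy : x ≠ y) (hxz : x ≠ z) (hyz : y ≠ z)
    (hx : a * x ^ 2 + b * x + c = 0) (hy : a * y ^ 2 + b * y + c = 0) (hz : a * z ^ 2 + b * z + c = 0) :
    a = 0 ∧ b = 0 ∧ c = 0 := by
  have h1 : a * (x + y) + b = 0 := by
    apply mul_left_cancel₀ (sub_ne_zero.2 hxy)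
    linear_combination hx - hy
  have h2 : a * (x + z) + b = 0 := by
    apply mul_left_cancel₀ (sub_ne_zero.2 hxz)
    linear_combination hx - hz
  have h3 : a = 0 := by
    apply mul_left_cancel₀ (sub_ne_zero.2 hyz)
    linear_combination h1 - h2
  subst h3
  have h4 : b = 0 := by linear_combination h1
  subst h4
  exact ⟨rfl, rfl, by linear_combination hx⟩

/-- The relations between the parameters of a triangle of the family. -/
structure Rel (c α β z₁ z₂ z₃ : ℂ) : Prop where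
  e1 : z₁ + z₂ + z₃ = 2 * c + z₁ * z₂ * z₃ * (conj c ^ 2 - 4 * conj α * conj β)
  e2 : z₁ * z₂ + z₁ * z₃ + z₂ * z₃ = c ^ 2 - 4 * α * β + z₁ * z₂ * z₃ * (2 * conj c)
  cayley : 4 * (α * conj α + β * conj β) =
    1 + (c ^ 2 - 4 * α * β) * (conj c ^ 2 - 4 * conj α * conj β) - 2 * c * conj c

lemma rel_of_tangent {c α β z₁ z₂ z₃ : ℂ} (h1 : z₁ ≠ 0) (h2 : z₂ ≠ 0) (h3 : z₃ ≠ 0)
    (h12 : z₁ ≠ z₂) (h13 : z₁ ≠ z₃) (h23 : z₂ ≠ z₃)
    (t12 : (z₁ + z₂ - c - z₁ * z₂ * conj c) ^ 2 =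
        4 * (α + z₁ * z₂ * conj β) * (β + z₁ * z₂ * conj α))
    (t13 : (z₁ + z₃ - c - z₁ * z₃ * conj c) ^ 2 =
        4 * (α + z₁ * z₃ * conj β) * (β + z₁ * z₃ * conj α))
    (t23 : (z₂ + z₃ - c - z₂ * z₃ * conj c) ^ 2 =
        4 * (α + z₂ * z₃ * conj β) * (β + z₂ * z₃ * conj α)) : Rel c α β z₁ z₂ z₃ := by
  have hl : z₁ * z₂ * z₃ ≠ 0 := mul_ne_zero (mul_ne_zero h1 h2) h3
  have key := three_roots (a := -(z₁ * z₂ + z₁ * z₃ + z₂ * z₃) + c ^ 2 + 2 * conj c * (z₁ * z₂ * z₃) - 4 * α * β)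
    (b := z₁ * z₂ * z₃ + (z₁ + z₂ + z₃) * (z₁ * z₂ + z₁ * z₃ + z₂ * z₃)
      - 2 * c * (z₁ * z₂ + z₁ * z₃ + z₂ * z₃) - 2 * (z₁ + z₂ + z₃) * conj c * (z₁ * z₂ * z₃)
      + 2 * c * conj c * (z₁ * z₂ * z₃) - 4 * (z₁ * z₂ * z₃) * (α * conj α + β * conj β))
    (c := -(z₁ + z₂ + z₃) * (z₁ * z₂ * z₃) + 2 * c * (z₁ * z₂ * z₃) + conj c ^ 2 * (z₁ * z₂ * z₃) ^ 2
      - 4 * (z₁ * z₂ * z₃) ^ 2 * conj α * conj β) h12 h13 h23
    (by linear_combination z₁ ^ 2 * t23) (by linear_combination z₂ ^ 2 * t13)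
    (by linear_combination z₃ ^ 2 * t12)
  obtain ⟨k2, k1, k0⟩ := key
  have e1 : z₁ + z₂ + z₃ = 2 * c + z₁ * z₂ * z₃ * (conj c ^ 2 - 4 * conj α * conj β) := by
    apply mul_left_cancel₀ hl
    linear_combination -k0
  have e2 : z₁ * z₂ + z₁ * z₃ + z₂ * z₃ = c ^ 2 - 4 * α * β + z₁ * z₂ * z₃ * (2 * conj c) := by
    linear_combination -k2
  refine ⟨e1, e2, ?_⟩
  apply mul_left_cancel₀ hl
  rw [e1, e2] at k1
  linear_combination -k1

lemma tangent_of_rel {c α β z₁ z₂ z₃ : ℂ} (h3 : z₃ ≠ 0) (h : Rel c α β z₁ z₂ z₃) :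
    (z₁ + z₂ - c - z₁ * z₂ * conj c) ^ 2 =
        4 * (α + z₁ * z₂ * conj β) * (β + z₁ * z₂ * conj α) := by
  obtain ⟨e1, e2, e3⟩ := h
  apply mul_left_cancel₀ (pow_ne_zero 2 h3)
  linear_combination (-z₃ ^ 2) * e2 + z₃ * (-(z₁ * z₂ * z₃) * e3
    + (z₁ * z₂ + z₁ * z₃ + z₂ * z₃ - 2 * conj c * (z₁ * z₂ * z₃)) * e1
    + (z₁ * z₂ * z₃) * (conj c ^ 2 - 4 * conj α * conj β) * e2) - (z₁ * z₂ * z₃) * e1

lemma exists_param {c₀ A B c α β : ℂ} (hAB : ‖A‖ ≠ ‖B‖) (hαβ : ‖α‖ ≠ ‖β‖) {P : Fin 3 → ℂ}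
    (h : Periodic (ellipse c₀ A B) (inner c₀ A B c α β) P) :
    ∃ z₁ z₂ z₃ : ℂ, z₁ * conj z₁ = 1 ∧ z₂ * conj z₂ = 1 ∧ z₃ * conj z₃ = 1 ∧ z₁ ≠ z₂ ∧ z₁ ≠ z₃ ∧
      z₂ ≠ z₃ ∧ P 0 = pt c₀ A B z₁ ∧ P 1 = pt c₀ A B z₂ ∧ P 2 = pt c₀ A B z₃ ∧
      Rel c α β z₁ z₂ z₃ := by
  obtain ⟨z₁, h1, p1⟩ := h.mem 0
  obtain ⟨z₂, h2, p2⟩ := h.mem 1
  obtain ⟨z₃, h3, p3⟩ := h.mem 2
  have hne : ∀ i j, i ≠ j → P i ≠ P j := fun i j hij he => hij (h.indep.injective he)
  have h12 : z₁ ≠ z₂ := by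
    rintro rfl; exact hne 0 1 (by decide) (p1.trans p2.symm)
  have h13 : z₁ ≠ z₃ := by
    rintro rfl; exact hne 0 2 (by decide) (p1.trans p3.symm)
  have h23 : z₂ ≠ z₃ := by
    rintro rfl; exact hne 1 2 (by decide) (p2.trans p3.symm)
  have u1 := unimod h1
  have u2 := unimod h2
  have u3 := unimod h3
  have n1 : z₁ ≠ 0 := by rintro rfl; simp at h1
  have n2 : z₂ ≠ 0 := by rintro rfl; simp at h2
  have n3 : z₃ ≠ 0 := by rintro rfl; simp at h3
  have q1 : P 0 = pt c₀ A B z₁ := p1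
  have q2 : P 1 = pt c₀ A B z₂ := p2
  have q3 : P 2 = pt c₀ A B z₃ := p3
  have t12 := h.tangent 0 1 (by decide)
  have t13 := h.tangent 0 2 (by decide)
  have t23 := h.tangent 1 2 (by decide)
  rw [q1, q2] at t12
  rw [q1, q3] at t13
  rw [q2, q3] at t23
  rw [tangent_iff hAB hαβ u1 u2 h12] at t12
  rw [tangent_iff hAB hαβ u1 u3 h13] at t13
  rw [tangent_iff hAB hαβ u2 u3 h23] at t23
  exact ⟨z₁, z₂, z₃, u1, u2, u3, h12, h13, h23, q1, q2, q3,
    rel_of_tangent n1 n2 n3 h12 h13 h23 t12 t13 t23⟩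

lemma dist_eq_complex {x y : ℂ} {r : ℝ} (h : dist x y = r) :
    (x - y) * conj (x - y) = (r : ℂ) ^ 2 := by
  rw [mul_conj, normSq_eq_norm_sq, ← dist_eq_norm, h]; push_cast; ring

lemma dist_sq_complex (x y : ℂ) : ((dist x y ^ 2 : ℝ) : ℂ) = (x - y) * conj (x - y) := by
  rw [dist_eq_complex rfl]; push_cast; ring

/-- The circle through three points of the ellipse. -/
lemma circle_rel {c₀ A B O z₁ z₂ z₃ : ℂ} {r : ℝ} (u1 : z₁ * conj z₁ = 1) (u2 : z₂ * conj z₂ = 1)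
    (u3 : z₃ * conj z₃ = 1) (h12 : z₁ ≠ z₂) (h13 : z₁ ≠ z₃) (h23 : z₂ ≠ z₃)
    (d1 : dist (pt c₀ A B z₁) O = r) (d2 : dist (pt c₀ A B z₂) O = r)
    (d3 : dist (pt c₀ A B z₃) O = r) :
    A * conj (O - c₀) + (O - c₀) * conj B =
        A * conj B * (z₁ + z₂ + z₃) + conj A * B * conj (z₁ * z₂ * z₃) ∧
      A * conj A + B * conj B + (O - c₀) * conj (O - c₀) - (r : ℂ) ^ 2 =
        A * conj B * (z₁ * z₂ + z₁ * z₃ + z₂ * z₃)
          + conj A * B * conj (z₁ * z₂ * z₃) * (z₁ + z₂ + z₃) := by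
  have quartic : ∀ z : ℂ, z * conj z = 1 → dist (pt c₀ A B z) O = r →
      A * conj B * z ^ 4 - (A * conj (O - c₀) + (O - c₀) * conj B) * z ^ 3
        + (A * conj A + B * conj B + (O - c₀) * conj (O - c₀) - (r : ℂ) ^ 2) * z ^ 2
        - (B * conj (O - c₀) + (O - c₀) * conj A) * z + conj A * B = 0 := by
    intro z hz hd
    have h1 := dist_eq_complex hd
    unfold pt at h1
    simp only [map_sub, map_add, map_mul, conj_conj] at h1 ⊢
    have h2 : z ^ 2 * ((c₀ + A * z + B * conj z - O) *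
      (conj c₀ + conj A * conj z + conj B * z - conj O)) = z ^ 2 * (r : ℂ) ^ 2 := by rw [h1]
    generalize conj z = y at *
    generalize conj A = A1 at *
    generalize conj B = B1 at *
    generalize conj O = O1 at *
    generalize conj c₀ = c1 at *
    linear_combination h2 + (-A * A1 * z ^ 2 + A * c1 * 0 - B * B1 * z ^ 2
      + (O - c₀) * A1 * z + (O1 - c1) * B * z - A1 * B * (z * y + 1)) * hz
  have hl1 : (z₁ * z₂ * z₃) * conj (z₁ * z₂ * z₃) = 1 := by
    rw [map_mul, map_mul]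
    linear_combination (z₂ * conj z₂ * z₃ * conj z₃) * u1 + (z₃ * conj z₃) * u2 + u3
  have hl : z₁ * z₂ * z₃ ≠ 0 := by
    intro h; rw [h] at hl1; simp at hl1
  have q1 := quartic z₁ u1 d1
  have q2 := quartic z₂ u2 d2
  have q3 := quartic z₃ u3 d3
  generalize A * conj (O - c₀) + (O - c₀) * conj B = W at *
  generalize A * conj A + B * conj B + (O - c₀) * conj (O - c₀) - (r : ℂ) ^ 2 = K at *
  generalize B * conj (O - c₀) + (O - c₀) * conj A = V at *
  generalize conj (z₁ * z₂ * z₃) = L at *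
  have key := three_roots
    (a := K - A * conj B * (z₁ * z₂ + z₁ * z₃ + z₂ * z₃)
      + (A * conj B * (z₁ + z₂ + z₃) - W) * (z₁ + z₂ + z₃))
    (b := -V + A * conj B * (z₁ * z₂ * z₃)
      - (A * conj B * (z₁ + z₂ + z₃) - W) * (z₁ * z₂ + z₁ * z₃ + z₂ * z₃))
    (c := conj A * B + (A * conj B * (z₁ + z₂ + z₃) - W) * (z₁ * z₂ * z₃)) h12 h13 h23
    (by linear_combination q1) (by linear_combination q2) (by linear_combination q3)
  obtain ⟨k2, k1, k0⟩ := key
  have hW : W = A * conj B * (z₁ + z₂ + z₃) + conj A * B * L := by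
    apply mul_left_cancel₀ hl
    linear_combination -k0 - conj A * B * hl1
  refine ⟨hW, ?_⟩
  rw [hW] at k2
  linear_combination k2

lemma lam_unimod {z₁ z₂ z₃ : ℂ} (u1 : z₁ * conj z₁ = 1) (u2 : z₂ * conj z₂ = 1)
    (u3 : z₃ * conj z₃ = 1) : (z₁ * z₂ * z₃) * conj (z₁ * z₂ * z₃) = 1 := by
  rw [map_mul, map_mul]
  linear_combination (z₂ * conj z₂ * z₃ * conj z₃) * u1 + (z₃ * conj z₃) * u2 + u3

/-- The power with respect to the circumcircle. -/
lemma power_circum {c₀ A B O z₁ z₂ z₃ ζ : ℂ} {r : ℝ} (u1 : z₁ * conj z₁ = 1) (u2 : z₂ * conj z₂ = 1)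
    (u3 : z₃ * conj z₃ = 1) (h12 : z₁ ≠ z₂) (h13 : z₁ ≠ z₃) (h23 : z₂ ≠ z₃)
    (d1 : dist (pt c₀ A B z₁) O = r) (d2 : dist (pt c₀ A B z₂) O = r)
    (d3 : dist (pt c₀ A B z₃) O = r) :
    ((power (pt c₀ A B ζ) O r : ℝ) : ℂ) =
      (A * ζ + B * conj ζ) * (conj A * conj ζ + conj B * ζ)
      - ζ * (A * conj B * (z₁ + z₂ + z₃) + conj A * B * conj (z₁ * z₂ * z₃))
      - conj ζ * (conj A * B * conj (z₁ + z₂ + z₃) + A * conj B * (z₁ * z₂ * z₃))
      + A * conj B * (z₁ * z₂ + z₁ * z₃ + z₂ * z₃)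
      + conj A * B * conj (z₁ * z₂ * z₃) * (z₁ + z₂ + z₃) - A * conj A - B * conj B := by
  obtain ⟨hW, hK⟩ := circle_rel u1 u2 u3 h12 h13 h23 d1 d2 d3
  have hWc := congrArg conj hW
  unfold power
  rw [ofReal_sub, dist_sq_complex]
  generalize hL : conj (z₁ * z₂ * z₃) = L at *
  have hL2 : conj L = z₁ * z₂ * z₃ := by rw [← hL, conj_conj]
  generalize hE : conj (z₁ + z₂ + z₃) = E at *
  simp only [map_sub, map_add, map_mul, conj_conj, hL2, ofReal_pow, pt] at hWc hW hK hE ⊢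
  rw [hE] at hWc
  linear_combination (-ζ) * hW - conj ζ * hWc + hK

/-- The equation `ζ + m ζ̄ = s`. -/
lemma solve_eq {m s : ℂ} (hm : m * conj m ≠ 1) : ∃ ζ : ℂ, ζ + m * conj ζ = s := by
  have h1 : 1 - m * conj m ≠ 0 := sub_ne_zero.2 (Ne.symm hm)
  have h2 : conj (1 - m * conj m) = 1 - m * conj m := by
    simp only [map_sub, map_one, map_mul, conj_conj]; ring
  refine ⟨(s - m * conj s) / (1 - m * conj m), ?_⟩
  rw [map_div₀, h2, map_sub, map_mul, conj_conj]
  field_simp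
  ring

/-- If there is a triangle then `|m| ≠ 1`. -/
lemma m_ne {c α β : ℂ} (hαβ : ‖α‖ ≠ ‖β‖)
    (h : 4 * (α * conj α + β * conj β) =
      1 + (c ^ 2 - 4 * α * β) * (conj c ^ 2 - 4 * conj α * conj β) - 2 * c * conj c) :
    (c ^ 2 - 4 * α * β) * (conj c ^ 2 - 4 * conj α * conj β) ≠ 1 := by
  intro h1
  have h2 : ‖c ^ 2 - 4 * α * β‖ = 1 := by
    apply norm_of_unimod
    simp only [map_sub, map_mul, map_pow]
    have : conj (4 : ℂ) = 4 := by
      have := conj_ofReal 4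
      simpa using this
    rw [this]
    exact h1
  have h3 : ‖c ^ 2 - 4 * α * β‖ ≤ ‖c‖ ^ 2 + 4 * ‖α‖ * ‖β‖ := by
    refine (norm_sub_le _ _).trans ?_
    rw [norm_pow, norm_mul, norm_mul]
    norm_num
  rw [h1] at h
  have h4 : 4 * (‖α‖ ^ 2 + ‖β‖ ^ 2) = 2 - 2 * ‖c‖ ^ 2 := by
    have e1 : ∀ z : ℂ, z * conj z = ((‖z‖ ^ 2 : ℝ) : ℂ) := by
      intro z; rw [mul_conj, normSq_eq_norm_sq]
    rw [mul_assoc 2 c, e1, e1, e1] at h
    have h5 : ((4 * (‖α‖ ^ 2 + ‖β‖ ^ 2) : ℝ) : ℂ) = ((2 - 2 * ‖c‖ ^ 2 : ℝ) : ℂ) := by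
      push_cast at h ⊢
      linear_combination h
    exact_mod_cast h5
  have h5 : (‖α‖ - ‖β‖) ^ 2 ≤ 0 := by nlinarith
  have h6 : ‖α‖ - ‖β‖ = 0 := by
    have := sq_nonneg (‖α‖ - ‖β‖)
    exact pow_eq_zero_iff two_ne_zero |>.1 (le_antisymm h5 this)
  exact hαβ (sub_eq_zero.1 h6)

/-- Q1 for the normalised pair. -/
lemma q1_normal {c₀ A B c α β : ℂ} (hAB : ‖A‖ ≠ ‖B‖) (hαβ : ‖α‖ ≠ ‖β‖) :
    ∃ (X : ℂ) (k : ℝ), ∀ P : Fin 3 → ℂ, Periodic (ellipse c₀ A B) (inner c₀ A B c α β) P →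
      ∀ (O : ℂ) (r : ℝ), IsCircumcircle P O r → power X O r = k := by
  by_cases hm : (c ^ 2 - 4 * α * β) * (conj c ^ 2 - 4 * conj α * conj β) = 1
  · refine ⟨0, 0, ?_⟩
    intro P hP
    obtain ⟨z₁, z₂, z₃, -, -, -, -, -, -, -, -, -, hrel⟩ := exists_param hAB hαβ hP
    exact absurd hm (m_ne hαβ hrel.cayley)
  · have h4 : conj (4 : ℂ) = 4 := by
      have := conj_ofReal 4
      simpa using this
    have hmc : conj (c ^ 2 - 4 * α * β) = conj c ^ 2 - 4 * conj α * conj β := by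
      simp only [map_sub, map_mul, map_pow, h4]
    obtain ⟨ζ, hζ⟩ := solve_eq (m := c ^ 2 - 4 * α * β) (s := 2 * c) (by rw [hmc]; exact hm)
    have h2 : conj (2 : ℂ) = 2 := by
      have := conj_ofReal 2
      simpa using this
    have hζc := congrArg conj hζ
    rw [map_add, map_mul, hmc, conj_conj, map_mul, h2] at hζc
    refine ⟨pt c₀ A B ζ, ((A * ζ + B * conj ζ) * (conj A * conj ζ + conj B * ζ)
      - ζ * A * conj B * (2 * c) - conj ζ * conj A * B * (2 * conj c)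
      + A * conj B * (c ^ 2 - 4 * α * β) + conj A * B * (conj c ^ 2 - 4 * conj α * conj β)
      - A * conj A - B * conj B).re, ?_⟩
    intro P hP O r hO
    obtain ⟨z₁, z₂, z₃, u1, u2, u3, h12, h13, h23, p1, p2, p3, hrel⟩ := exists_param hAB hαβ hP
    have hp := power_circum (ζ := ζ) u1 u2 u3 h12 h13 h23 (p1 ▸ hO 0) (p2 ▸ hO 1) (p3 ▸ hO 2)
    have hl := lam_unimod u1 u2 u3
    obtain ⟨e1, e2, -⟩ := hrel
    rw [e1, e2] at hp
    generalize z₁ * z₂ * z₃ = l at *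
    simp only [map_add, map_mul, map_sub, map_pow, conj_conj, h2, h4] at hp
    rw [← ofReal_re (power (pt c₀ A B ζ) O r), hp]
    congr 1
    linear_combination (-(A * conj B * l)) * hζc - conj A * B * conj l * hζ
      + conj A * B * (conj c ^ 2 - 4 * conj α * conj β) * hl

/-! ### The Euler circle -/

lemma conj_two : conj (2 : ℂ) = 2 := by
  have := conj_ofReal 2
  simpa using this

lemma conj_four : conj (4 : ℂ) = 4 := by
  have := conj_ofReal 4
  simpa using this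

lemma euler_aux {P : Fin 3 → ℂ} {N : ℂ} {r : ℝ} {i j k : Fin 3} (hs : P 0 + P 1 + P 2 = P i + P j + P k)
    (h : dist (midpoint ℝ (P i) (P j)) N = r) : dist (P k) (P 0 + P 1 + P 2 - 2 * N) = 2 * r := by
  rw [← h, dist_eq_norm, dist_eq_norm, hs]
  have h1 : P k - (P i + P j + P k - 2 * N) = (-2 : ℝ) • (midpoint ℝ (P i) (P j) - N) := by
    rw [midpoint_eq_smul_add]
    simp only [invOf_eq_inv, real_smul]
    push_cast
    ring
  rw [h1, norm_smul]
  norm_num

lemma euler_circum {P : Fin 3 → ℂ} {N : ℂ} {r : ℝ} (h : IsEulerCircle P N r) :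
    IsCircumcircle P (P 0 + P 1 + P 2 - 2 * N) (2 * r) := by
  intro k
  fin_cases k
  · exact euler_aux (i := 1) (j := 2) (k := 0) (by ring) (h 1 2 (by decide))
  · exact euler_aux (i := 0) (j := 2) (k := 1) (by ring) (h 0 2 (by decide))
  · exact euler_aux (i := 0) (j := 1) (k := 2) (by ring) (h 0 1 (by decide))

/-- The coefficient of `λ`. -/
noncomputable def kap (A B c α β ζ : ℂ) : ℂ :=
  -(A * conj A + B * conj B) * (2 * conj ζ - 2 * conj c) * (conj c ^ 2 - 4 * conj α * conj β)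
    + A * conj B * (2 * conj ζ - 2 * ζ * (conj c ^ 2 - 4 * conj α * conj β))

/-- The constant term. -/
noncomputable def cst (A B c α β ζ : ℂ) : ℂ :=
  (A * conj A + B * conj B) * ((2 * ζ - 2 * c) * (2 * conj ζ - 2 * conj c)
    + (c ^ 2 - 4 * α * β) * (conj c ^ 2 - 4 * conj α * conj β) - 1)
    + A * conj B * (4 * ζ ^ 2 - 4 * ζ * c) + conj A * B * (4 * conj ζ ^ 2 - 4 * conj ζ * conj c)

/-- The power with respect to the Euler circle. -/
lemma power_euler {c₀ A B c α β z₁ z₂ z₃ ζ N : ℂ} {r : ℝ} {P : Fin 3 → ℂ} (u1 : z₁ * conj z₁ = 1)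
    (u2 : z₂ * conj z₂ = 1) (u3 : z₃ * conj z₃ = 1) (h12 : z₁ ≠ z₂) (h13 : z₁ ≠ z₃) (h23 : z₂ ≠ z₃)
    (p1 : P 0 = pt c₀ A B z₁) (p2 : P 1 = pt c₀ A B z₂) (p3 : P 2 = pt c₀ A B z₃)
    (hrel : Rel c α β z₁ z₂ z₃) (hN : IsEulerCircle P N r) :
    4 * ((power (pt c₀ A B ζ) N r : ℝ) : ℂ) = cst A B c α β ζ
      + kap A B c α β ζ * (z₁ * z₂ * z₃) + conj (kap A B c α β ζ * (z₁ * z₂ * z₃)) := by
  have hO := euler_circum hN
  have hS : P 0 + P 1 + P 2 = 3 * c₀ + A * (z₁ + z₂ + z₃) + B * conj (z₁ + z₂ + z₃) := by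
    rw [p1, p2, p3]
    simp only [pt, map_add]
    ring
  have d1 := hO 0
  have d2 := hO 1
  have d3 := hO 2
  rw [hS, p1] at d1
  rw [hS, p2] at d2
  rw [hS, p3] at d3
  obtain ⟨hW, hK⟩ := circle_rel u1 u2 u3 h12 h13 h23 d1 d2 d3
  have hl := lam_unimod u1 u2 u3
  obtain ⟨e1, e2, -⟩ := hrel
  have hWc := congrArg conj hW
  unfold power kap cst
  rw [ofReal_sub, dist_sq_complex]
  clear d1 d2 d3 hS hO hN
  generalize z₁ * z₂ * z₃ = l at *
  generalize z₁ * z₂ + z₁ * z₃ + z₂ * z₃ = E2 at *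
  generalize z₁ + z₂ + z₃ = E at *
  subst e1 e2
  have h3 : conj (3 : ℂ) = 3 := by
    have := conj_ofReal 3
    simpa using this
  simp only [map_sub, map_add, map_mul, map_pow, map_neg, conj_conj, conj_two, conj_four, h3, ofReal_pow,
    pt, ofReal_mul, ofReal_ofNat] at hW hWc hK ⊢
  linear_combination (2 * ζ - 2 * c - l * (conj c ^ 2 - 4 * conj α * conj β)) * hW
    + (2 * conj ζ - 2 * conj c - conj l * (c ^ 2 - 4 * α * β)) * hWc + hK
    + ((A * conj A + B * conj B) * (c ^ 2 - 4 * α * β) * (conj c ^ 2 - 4 * conj α * conj β)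
      - A * conj B * (c ^ 2 - 4 * α * β)) * hl

/-- The equation `a ζ̄ + b ζ = R`. -/
lemma solve_eq2 {a b R : ℂ} (hab : ‖a‖ ≠ ‖b‖) : ∃ ζ : ℂ, a * conj ζ + b * ζ = R := by
  have h0 : b * conj b - a * conj a ≠ 0 := by
    intro h
    apply hab
    rw [mul_conj, mul_conj, normSq_eq_norm_sq, normSq_eq_norm_sq] at h
    have h1 : ‖b‖ ^ 2 - ‖a‖ ^ 2 = 0 := by exact_mod_cast h
    exact (sq_eq_sq₀ (norm_nonneg _) (norm_nonneg _)).1 (by linarith)
  have h1 : conj (b * conj b - a * conj a) = b * conj b - a * conj a := by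
    simp only [map_sub, map_mul, conj_conj]; ring
  refine ⟨(conj b * R - a * conj R) / (b * conj b - a * conj a), ?_⟩
  rw [map_div₀, h1]
  simp only [map_sub, map_mul, conj_conj]
  field_simp
  ring

/-- The generic case of Q2 for the normalised pair. -/
lemma q2_normal {c₀ A B c α β : ℂ} (hAB : ‖A‖ ≠ ‖B‖) (hαβ : ‖α‖ ≠ ‖β‖)
    (hgen : ‖A * conj B - (‖A‖ ^ 2 + ‖B‖ ^ 2 : ℝ) * conj (c ^ 2 - 4 * α * β)‖ ≠
      ‖A‖ * ‖B‖ * ‖c ^ 2 - 4 * α * β‖) :
    ∃ (X : ℂ) (k : ℝ), ∀ P : Fin 3 → ℂ, Periodic (ellipse c₀ A B) (inner c₀ A B c α β) P →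
      ∀ (N : ℂ) (r : ℝ), IsEulerCircle P N r → power X N r = k := by
  have hmc : conj (c ^ 2 - 4 * α * β) = conj c ^ 2 - 4 * conj α * conj β := by
    simp only [map_sub, map_mul, map_pow, conj_four]
  have e1 : ∀ z : ℂ, z * conj z = ((‖z‖ ^ 2 : ℝ) : ℂ) := by
    intro z; rw [mul_conj, normSq_eq_norm_sq]
  have hab : ‖2 * (A * conj B - (‖A‖ ^ 2 + ‖B‖ ^ 2 : ℝ) * conj (c ^ 2 - 4 * α * β))‖ ≠
      ‖-2 * (A * conj B * conj (c ^ 2 - 4 * α * β))‖ := by
    rw [norm_mul, norm_mul (-2 : ℂ), norm_mul (A * conj B), norm_mul A, norm_conj, norm_conj, norm_neg]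
    intro h
    exact hgen (mul_left_cancel₀ (by norm_num) h)
  obtain ⟨ζ, hζ⟩ := solve_eq2 (R := -2 * (((‖A‖ ^ 2 + ‖B‖ ^ 2 : ℝ) : ℂ)
    * conj c * conj (c ^ 2 - 4 * α * β))) hab
  have hk : kap A B c α β ζ = 0 := by
    unfold kap
    rw [← hmc, e1, e1]
    push_cast at hζ ⊢
    linear_combination hζ
  refine ⟨pt c₀ A B ζ, (cst A B c α β ζ).re / 4, ?_⟩
  intro P hP N r hN
  obtain ⟨z₁, z₂, z₃, u1, u2, u3, h12, h13, h23, p1, p2, p3, hrel⟩ := exists_param hAB hαβ hP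
  have hp := power_euler (ζ := ζ) u1 u2 u3 h12 h13 h23 p1 p2 p3 hrel hN
  rw [hk, zero_mul, map_zero, add_zero, add_zero] at hp
  have h1 := congrArg Complex.re hp
  have h2 : (4 * ((power (pt c₀ A B ζ) N r : ℝ) : ℂ)).re = 4 * power (pt c₀ A B ζ) N r := by
    simp
  rw [h2] at h1
  linarith

/-- Normalisation of a pair of ellipses. -/
lemma normalise {c₀ A B c' a' b' : ℂ} (hAB : ‖A‖ ≠ ‖B‖) (hab : ‖a'‖ ≠ ‖b'‖) :
    ∃ c α β : ℂ, ‖α‖ ≠ ‖β‖ ∧ c' = c₀ + A * c + B * conj c ∧ a' = A * α + B * conj β ∧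
      b' = A * β + B * conj α := by
  have h0 : A * conj A - B * conj B ≠ 0 := by
    intro h
    apply hAB
    rw [mul_conj, mul_conj, normSq_eq_norm_sq, normSq_eq_norm_sq] at h
    have h1 : ‖A‖ ^ 2 - ‖B‖ ^ 2 = 0 := by exact_mod_cast h
    exact (sq_eq_sq₀ (norm_nonneg _) (norm_nonneg _)).1 (by linarith)
  have h1 : conj (A * conj A - B * conj B) = A * conj A - B * conj B := by
    simp only [map_sub, map_mul, conj_conj]; ring
  have e : ∃ c α β : ℂ, c' = c₀ + A * c + B * conj c ∧ a' = A * α + B * conj β ∧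
      b' = A * β + B * conj α := by
    refine ⟨(conj A * (c' - c₀) - B * conj (c' - c₀)) / (A * conj A - B * conj B),
      (conj A * a' - B * conj b') / (A * conj A - B * conj B),
      (conj A * b' - B * conj a') / (A * conj A - B * conj B), ?_, ?_, ?_⟩
    · rw [map_div₀, h1]
      simp only [map_sub, map_mul, conj_conj]
      field_simp
      ring
    · rw [map_div₀, h1]
      simp only [map_sub, map_mul, conj_conj]
      field_simp
      ring
    · rw [map_div₀, h1]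
      simp only [map_sub, map_mul, conj_conj]
      field_simp
      ring
  obtain ⟨c, α, β, e1, e2, e3⟩ := e
  refine ⟨c, α, β, ?_, e1, e2, e3⟩
  intro h
  apply hab
  have h2 : a' * conj a' - b' * conj b' = (A * conj A - B * conj B) * (α * conj α - β * conj β) := by
    rw [e2, e3]
    simp only [map_add, map_mul, conj_conj]
    ring
  have h3 : α * conj α - β * conj β = 0 := by
    rw [mul_conj, mul_conj, normSq_eq_norm_sq, normSq_eq_norm_sq, h, sub_self]
  rw [h3, mul_zero, mul_conj, mul_conj, normSq_eq_norm_sq, normSq_eq_norm_sq] at h2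
  have h4 : ‖a'‖ ^ 2 - ‖b'‖ ^ 2 = 0 := by exact_mod_cast h2
  exact (sq_eq_sq₀ (norm_nonneg _) (norm_nonneg _)).1 (by linarith)

/-! ### Construction of triangles -/

/-- Two points of the unit circle with given product `u` and sum `v`. -/
lemma exists_pair {u v : ℂ} (hu : u * conj u = 1) (hv : v = u * conj v) (hlt : ‖v‖ < 2) :
    ∃ z w : ℂ, z * conj z = 1 ∧ w * conj w = 1 ∧ z ≠ w ∧ z + w = v ∧ z * w = u := by
  obtain ⟨σ, hσ⟩ := IsAlgClosed.exists_pow_nat_eq u (n := 2) (by norm_num)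
  have hσ1 : σ * conj σ = 1 := by
    have h1 : ‖σ‖ ^ 2 = 1 := by rw [← norm_pow, hσ, norm_of_unimod hu]
    have h2 : ‖σ‖ = 1 := (pow_eq_one_iff_of_nonneg (norm_nonneg _) two_ne_zero).1 h1
    exact unimod h2
  have hσ0 : σ ≠ 0 := by rintro rfl; simp at hσ1
  -- the real number `v σ̄`
  have hreal : conj (v * conj σ) = v * conj σ := by
    rw [map_mul, conj_conj]
    have h1 : conj u = conj σ ^ 2 := by rw [← hσ, map_pow]
    have h2 : conj v = conj u * v := by
      have := congrArg conj hv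
      rwa [map_mul, conj_conj] at this
    rw [h2, h1]
    linear_combination (v * conj σ) * hσ1
  obtain ⟨n, hn⟩ := conj_eq_iff_real.1 hreal
  have hvn : v = σ * n := by
    rw [← hn]; linear_combination -v * hσ1
  have hn2 : n ^ 2 < 4 := by
    have h1 : ‖v‖ = |n| := by
      rw [hvn, norm_mul, norm_of_unimod hσ1, one_mul, norm_real, Real.norm_eq_abs]
    rw [h1] at hlt
    have := abs_nonneg n
    rw [← sq_abs]; nlinarith
  set t : ℝ := √(4 - n ^ 2) with ht
  have ht0 : 0 < t := Real.sqrt_pos.2 (by linarith)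
  have ht2 : t ^ 2 = 4 - n ^ 2 := Real.sq_sqrt (by linarith)
  have ht2' : (t : ℂ) ^ 2 = 4 - (n : ℂ) ^ 2 := by exact_mod_cast congrArg (fun x : ℝ => (x : ℂ)) ht2
  have hI : conj I = -I := conj_I
  refine ⟨σ * (n + I * t) / 2, σ * (n - I * t) / 2, ?_, ?_, ?_, ?_, ?_⟩
  · simp only [map_div₀, map_mul, map_add, conj_ofReal, conj_two, hI]
    linear_combination ((n : ℂ) ^ 2 + t ^ 2) / 4 * hσ1 + ht2' / 4 - σ * conj σ * (t : ℂ) ^ 2 / 4 * I_sq
  · simp only [map_div₀, map_mul, map_sub, conj_ofReal, conj_two, hI]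
    linear_combination ((n : ℂ) ^ 2 + t ^ 2) / 4 * hσ1 + ht2' / 4 - σ * conj σ * (t : ℂ) ^ 2 / 4 * I_sq
  · intro h
    have h1 : σ * I * t = 0 := by linear_combination h
    have h2 : (t : ℂ) ≠ 0 := by exact_mod_cast ht0.ne'
    exact mul_ne_zero (mul_ne_zero hσ0 I_ne_zero) h2 h1
  · rw [hvn]; ring
  · rw [← hσ]
    linear_combination σ ^ 2 / 4 * ht2' - σ ^ 2 * (t : ℂ) ^ 2 / 4 * I_sq

lemma Rel.swap {c α β z₁ z₂ z₃ : ℂ} (h : Rel c α β z₁ z₂ z₃) : Rel c α β z₂ z₁ z₃ := by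
  obtain ⟨e1, e2, e3⟩ := h
  exact ⟨by linear_combination e1, by linear_combination e2, e3⟩

lemma Rel.rot {c α β z₁ z₂ z₃ : ℂ} (h : Rel c α β z₁ z₂ z₃) : Rel c α β z₂ z₃ z₁ := by
  obtain ⟨e1, e2, e3⟩ := h
  exact ⟨by linear_combination e1, by linear_combination e2, e3⟩

/-- The points with the coordinates `z₁, z₂, z₃` form a triangle of the family. -/
lemma periodic_of_rel {c₀ A B c α β z₁ z₂ z₃ : ℂ} (hAB : ‖A‖ ≠ ‖B‖) (hαβ : ‖α‖ ≠ ‖β‖)
    (u1 : z₁ * conj z₁ = 1) (u2 : z₂ * conj z₂ = 1) (u3 : z₃ * conj z₃ = 1) (h12 : z₁ ≠ z₂)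
    (h13 : z₁ ≠ z₃) (h23 : z₂ ≠ z₃) (h : Rel c α β z₁ z₂ z₃) :
    Periodic (ellipse c₀ A B) (inner c₀ A B c α β) ![pt c₀ A B z₁, pt c₀ A B z₂, pt c₀ A B z₃] := by
  have n1 : z₁ ≠ 0 := by rintro rfl; simp at u1
  have n2 : z₂ ≠ 0 := by rintro rfl; simp at u2
  have n3 : z₃ ≠ 0 := by rintro rfl; simp at u3
  have t12 := (tangent_iff (c₀ := c₀) hAB hαβ u1 u2 h12).2 (tangent_of_rel n3 h)
  have t21 := (tangent_iff (c₀ := c₀) hAB hαβ u2 u1 h12.symm).2 (tangent_of_rel n3 h.swap)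
  have t23 := (tangent_iff (c₀ := c₀) hAB hαβ u2 u3 h23).2 (tangent_of_rel n1 h.rot)
  have t32 := (tangent_iff (c₀ := c₀) hAB hαβ u3 u2 h23.symm).2 (tangent_of_rel n1 h.rot.swap)
  have t31 := (tangent_iff (c₀ := c₀) hAB hαβ u3 u1 h13.symm).2 (tangent_of_rel n2 h.rot.rot)
  have t13 := (tangent_iff (c₀ := c₀) hAB hαβ u1 u3 h13).2 (tangent_of_rel n2 h.rot.rot.swap)
  refine ⟨?_, ?_, ?_⟩
  · intro i
    fin_cases i
    · exact ⟨z₁, norm_of_unimod u1, rfl⟩
    · exact ⟨z₂, norm_of_unimod u2, rfl⟩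
    · exact ⟨z₃, norm_of_unimod u3, rfl⟩
  · rw [affineIndependent_iff_not_collinear_set]
    intro hcol
    have h1 : pt c₀ A B z₃ ∈ line[ℝ, pt c₀ A B z₁, pt c₀ A B z₂] := by
      apply hcol.mem_affineSpan_of_mem_of_ne (by simp) (by simp) (by simp)
      intro he
      exact h12 (pt_inj hAB he)
    have h2 := (mem_line_iff hAB u1 u2 h12).1 h1
    have h3 : (z₃ - z₁) * (z₃ - z₂) = 0 := by
      linear_combination z₃ * h2 - z₁ * z₂ * u3
    rcases mul_eq_zero.1 h3 with h4 | h4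
    · exact h13 (sub_eq_zero.1 h4).symm
    · exact h23 (sub_eq_zero.1 h4).symm
  · intro i j hij
    fin_cases i <;> fin_cases j
    · exact absurd rfl hij
    · exact t12
    · exact t13
    · exact t21
    · exact absurd rfl hij
    · exact t23
    · exact t31
    · exact t32
    · exact absurd rfl hij

/-- If `|s| + |m| < 1` then every point of the outer ellipse is a vertex of a triangle. -/
lemma exists_triangle {c₀ A B c α β z₁ l : ℂ} (hAB : ‖A‖ ≠ ‖B‖) (hαβ : ‖α‖ ≠ ‖β‖)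
    (hcay : 4 * (α * conj α + β * conj β) =
      1 + (c ^ 2 - 4 * α * β) * (conj c ^ 2 - 4 * conj α * conj β) - 2 * c * conj c)
    (hsmall : 2 * ‖c‖ + ‖c ^ 2 - 4 * α * β‖ < 1) (u1 : z₁ * conj z₁ = 1) (hl : l * conj l = 1)
    (hl2 : l * (1 - 2 * conj c * z₁ + (conj c ^ 2 - 4 * conj α * conj β) * z₁ ^ 2) =
      z₁ * (z₁ ^ 2 - 2 * c * z₁ + (c ^ 2 - 4 * α * β))) :
    ∃ z₂ z₃ : ℂ, z₂ * conj z₂ = 1 ∧ z₃ * conj z₃ = 1 ∧ z₁ ≠ z₂ ∧ z₁ ≠ z₃ ∧ z₂ ≠ z₃ ∧
      Rel c α β z₁ z₂ z₃ ∧ z₁ * z₂ * z₃ = l ∧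
      Periodic (ellipse c₀ A B) (inner c₀ A B c α β) ![pt c₀ A B z₁, pt c₀ A B z₂, pt c₀ A B z₃] := by
  have hmc : conj (c ^ 2 - 4 * α * β) = conj c ^ 2 - 4 * conj α * conj β := by
    simp only [map_sub, map_mul, map_pow, conj_four]
  rw [← hmc] at hl2
  set m := c ^ 2 - 4 * α * β with hm
  have n1 : ‖z₁‖ = 1 := norm_of_unimod u1
  have nl : ‖l‖ = 1 := norm_of_unimod hl
  have he1 : ‖2 * c + l * conj m‖ < 1 := by
    calc ‖2 * c + l * conj m‖ ≤ ‖2 * c‖ + ‖l * conj m‖ := norm_add_le _ _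
      _ = 2 * ‖c‖ + ‖m‖ := by rw [norm_mul, norm_mul, nl, norm_conj]; norm_num
      _ < 1 := hsmall
  have hu : (l * conj z₁) * conj (l * conj z₁) = 1 := by
    rw [map_mul, conj_conj]; linear_combination (z₁ * conj z₁) * hl + u1
  have hl2c := congrArg conj hl2
  simp only [map_mul, map_add, map_sub, map_one, map_pow, conj_conj, conj_two] at hl2c
  have hv : 2 * c + l * conj m - z₁ = (l * conj z₁) * conj (2 * c + l * conj m - z₁) := by
    simp only [map_sub, map_add, map_mul, conj_conj, conj_two]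
    have hz0 : z₁ ≠ 0 := by rintro rfl; simp at u1
    apply mul_left_cancel₀ (pow_ne_zero 2 hz0)
    linear_combination hl2 - 2 * conj c * l * z₁ * u1 - m * z₁ * (z₁ * conj z₁ * hl + u1)
      + l * (z₁ * conj z₁ + 1) * u1
  have hvlt : ‖2 * c + l * conj m - z₁‖ < 2 := by
    calc ‖2 * c + l * conj m - z₁‖ ≤ ‖2 * c + l * conj m‖ + ‖z₁‖ := norm_sub_le _ _
      _ < 2 := by linarith
  obtain ⟨z₂, z₃, u2, u3, h23, hsum, hprod⟩ := exists_pair hu hv hvlt
  have hlam : z₁ * z₂ * z₃ = l := by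
    linear_combination z₁ * hprod + l * u1
  have hrel : Rel c α β z₁ z₂ z₃ := by
    refine ⟨?_, ?_, hcay⟩
    · rw [hlam, ← hmc]; linear_combination hsum
    · rw [hlam, ← hm]
      linear_combination z₁ * hsum + hprod + conj z₁ * hl2
        + (2 * l * conj c - l * conj m * z₁ + z₁ ^ 2 - 2 * c * z₁ + m) * u1
  have n2 : ‖z₂‖ = 1 := norm_of_unimod u2
  have n3 : ‖z₃‖ = 1 := norm_of_unimod u3
  have hsum3 : z₁ + z₂ + z₃ = 2 * c + l * conj m := by linear_combination hsum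
  have hge : ∀ z w : ℂ, ‖z‖ = 1 → ‖w‖ = 1 → 1 ≤ ‖z + z + w‖ := by
    intro z w hz hw
    have h1 : ‖z + z‖ = 2 := by rw [← two_mul, norm_mul, hz]; norm_num
    have h2 := norm_sub_norm_le (z + z) (-w)
    rw [norm_neg, sub_neg_eq_add, h1, hw] at h2
    linarith
  have h12 : z₁ ≠ z₂ := by
    intro he
    have h1 := hge z₁ z₃ n1 n3
    have h2 : z₁ + z₁ + z₃ = z₁ + z₂ + z₃ := by rw [← he]
    rw [h2, hsum3] at h1
    linarith
  have h13 : z₁ ≠ z₃ := by
    intro he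
    have h1 := hge z₁ z₂ n1 n2
    have h2 : z₁ + z₁ + z₂ = z₁ + z₂ + z₃ := by rw [← he]; ring
    rw [h2, hsum3] at h1
    linarith
  exact ⟨z₂, z₃, u2, u3, h12, h13, h23, hrel, hlam,
    periodic_of_rel hAB hαβ u1 u2 u3 h12 h13 h23 hrel⟩

/-! ### Existence of the Euler circle -/

lemma exists_euler {P : Fin 3 → ℂ} (h : AffineIndependent ℝ P) : ∃ (N : ℂ) (r : ℝ), IsEulerCircle P N r := by
  set S : Affine.Simplex ℝ ℂ 2 := ⟨P, h⟩ with hS
  set O := S.circumcenter with hO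
  have hd : ∀ i, dist (P i) O = S.circumradius := fun i => S.dist_circumcenter_eq_circumradius i
  have key : ∀ i j k : Fin 3, P 0 + P 1 + P 2 = P i + P j + P k →
      dist (midpoint ℝ (P i) (P j)) ((P 0 + P 1 + P 2 - O) / 2) = S.circumradius / 2 := by
    intro i j k hs
    rw [← hd k, hs, dist_eq_norm, dist_eq_norm]
    have h1 : midpoint ℝ (P i) (P j) - (P i + P j + P k - O) / 2 = (-(1 / 2) : ℝ) • (P k - O) := by
      rw [midpoint_eq_smul_add]
      simp only [invOf_eq_inv, real_smul]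
      push_cast
      ring
    rw [h1, norm_smul]
    norm_num
    ring
  refine ⟨(P 0 + P 1 + P 2 - O) / 2, S.circumradius / 2, ?_⟩
  intro i j hij
  fin_cases i <;> fin_cases j
  · exact absurd rfl hij
  · exact key 0 1 2 (by ring)
  · exact key 0 2 1 (by ring)
  · exact key 1 0 2 (by ring)
  · exact absurd rfl hij
  · exact key 1 2 0 (by ring)
  · exact key 2 0 1 (by ring)
  · exact key 2 1 0 (by ring)
  · exact absurd rfl hij

/-- The line through `c` with the direction `u`, `|u| = 1`, is an axis of symmetry of `S`. -/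
def IsAxis (S : Set ℂ) (c u : ℂ) : Prop := ∀ z, z ∈ S ↔ c + u ^ 2 * conj (z - c) ∈ S

/-! ### The example -/

lemma exists_alpha : ∃ a : ℝ, 0 < a ∧ a ^ 4 - a ^ 2 / 4 + 25 / 4802 = 0 := by
  have h1 : √1601 ^ 2 = (1601 : ℝ) := Real.sq_sqrt (by norm_num)
  refine ⟨√((49 + √1601) / 392), by positivity, ?_⟩
  have h2 : √((49 + √1601) / 392) ^ 2 = (49 + √1601) / 392 := Real.sq_sqrt (by positivity)
  have h3 : √((49 + √1601) / 392) ^ 4 = ((49 + √1601) / 392) ^ 2 := by
    calc √((49 + √1601) / 392) ^ 4 = (√((49 + √1601) / 392) ^ 2) ^ 2 := by ring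
      _ = _ := by rw [h2]
  rw [h3, h2]
  nlinarith

/-- If three values of `Re (κ λ)` agree then `κ = 0`. -/
lemma kappa_zero {κ : ℂ} {t : ℝ} (h1 : (κ * ⟨45 / 53, -28 / 53⟩).re = t)
    (h2 : (κ * ⟨-117 / 125, -44 / 125⟩).re = t) (h3 : (κ * ⟨12 / 13, -5 / 13⟩).re = t) : κ = 0 := by
  rw [mul_re] at h1 h2 h3
  simp only at h1 h2 h3
  have e1 : κ.re = 0 := by linarith
  have e2 : κ.im = 0 := by linarith
  exact Complex.ext e1 e2

/-- The data of the example. -/
structure Ex (c α β : ℂ) : Prop where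
  ne : ‖α‖ ≠ ‖β‖
  hc : c = ⟨1 / 7, 1 / 7⟩
  m : c ^ 2 - 4 * α * β = 2 / 7
  mc : conj c ^ 2 - 4 * conj α * conj β = 2 / 7
  sum : α * conj α + β * conj β = 1 / 4
  im : ((2 * α + conj β) * (2 * β + conj α)).im ≠ 0

lemma exists_example : ∃ c α β : ℂ, Ex c α β := by
  obtain ⟨a, ha, h4⟩ := exists_alpha
  have haC : (a : ℂ) ≠ 0 := by exact_mod_cast ha.ne'
  have hc2 : (⟨1 / 7, 1 / 7⟩ : ℂ) ^ 2 = ⟨0, 2 / 49⟩ := by
    apply Complex.ext <;> simp [pow_two] <;> norm_num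
  have hβ : 4 * (a : ℂ) * (⟨-1 / (14 * a), 1 / (98 * a)⟩ : ℂ) = ⟨-2 / 7, 2 / 49⟩ := by
    apply Complex.ext
    · simp; field_simp; norm_num
    · simp; field_simp; norm_num
  have hm : (⟨1 / 7, 1 / 7⟩ : ℂ) ^ 2 - 4 * (a : ℂ) * (⟨-1 / (14 * a), 1 / (98 * a)⟩ : ℂ) = 2 / 7 := by
    rw [hβ, hc2]
    apply Complex.ext
    · simp; norm_num
    · simp
  have hsum : (a : ℝ) ^ 2 + ((-1 / (14 * a)) ^ 2 + (1 / (98 * a)) ^ 2) = 1 / 4 := by
    have h5 : a ^ 2 * (a ^ 2 + ((-1 / (14 * a)) ^ 2 + (1 / (98 * a)) ^ 2)) = a ^ 2 * (1 / 4) := by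
      have : a ^ 2 * (a ^ 2 + ((-1 / (14 * a)) ^ 2 + (1 / (98 * a)) ^ 2)) = a ^ 4 + 25 / 4802 := by
        field_simp; norm_num; ring
      rw [this]; linarith
    exact mul_left_cancel₀ (by positivity) h5
  refine ⟨⟨1 / 7, 1 / 7⟩, a, ⟨-1 / (14 * a), 1 / (98 * a)⟩, ?_, rfl, hm, ?_, ?_, ?_⟩
  · intro h
    have h6 : ‖(a : ℂ)‖ ^ 2 = ‖(⟨-1 / (14 * a), 1 / (98 * a)⟩ : ℂ)‖ ^ 2 := by rw [h]
    rw [← normSq_eq_norm_sq, ← normSq_eq_norm_sq, normSq_apply, normSq_apply] at h6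
    simp only [ofReal_re, ofReal_im, mul_zero, add_zero] at h6
    have h7 : a ^ 2 = 1 / 8 := by nlinarith
    have h8 : a ^ 4 = 1 / 64 := by
      calc a ^ 4 = (a ^ 2) ^ 2 := by ring
        _ = _ := by rw [h7]; norm_num
    rw [h7, h8] at h4
    norm_num at h4
  · have := congrArg conj hm
    simp only [map_sub, map_mul, map_pow, conj_four] at this
    rw [this, map_div₀, conj_two]
    have h7 : conj (7 : ℂ) = 7 := by
      have := conj_ofReal 7
      simpa using this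
    rw [h7]
  · rw [mul_conj, mul_conj, normSq_apply, normSq_apply]
    simp only [ofReal_re, ofReal_im, mul_zero, add_zero]
    rw [← ofReal_add]
    have : a * a + (-1 / (14 * a) * (-1 / (14 * a)) + 1 / (98 * a) * (1 / (98 * a))) = 1 / 4 := by
      rw [← hsum]; ring
    rw [this]; norm_num
  · have : ((2 * (a : ℂ) + conj (⟨-1 / (14 * a), 1 / (98 * a)⟩ : ℂ)) *
        (2 * (⟨-1 / (14 * a), 1 / (98 * a)⟩ : ℂ) + conj (a : ℂ))).im = 3 / 98 := by
      simp
      field_simp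
      ring
    rw [this]; norm_num

lemma norm_two_one : ‖(2 : ℂ)‖ ≠ ‖(1 : ℂ)‖ := by norm_num

lemma inner_subset_inside {c α β : ℂ} (h : Ex c α β) : inner 0 2 1 c α β ⊆ inside 0 2 1 := by
  intro x hx
  obtain ⟨w, hw, rfl⟩ := mem_inner.1 hx
  refine ⟨c + α * w + β * conj w, ?_, rfl⟩
  have h1 : ‖c + α * w + β * conj w‖ ≤ ‖c‖ + ‖α‖ + ‖β‖ := by
    calc ‖c + α * w + β * conj w‖ ≤ ‖c‖ + ‖α * w‖ + ‖β * conj w‖ := norm_add₃_le
      _ = ‖c‖ + ‖α‖ + ‖β‖ := by rw [norm_mul, norm_mul, norm_conj, hw, mul_one, mul_one]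
  have h2 : ‖α‖ ^ 2 + ‖β‖ ^ 2 = 1 / 4 := by
    have := h.sum
    rw [mul_conj, mul_conj, normSq_eq_norm_sq, normSq_eq_norm_sq] at this
    have h3 : ((‖α‖ ^ 2 + ‖β‖ ^ 2 : ℝ) : ℂ) = ((1 / 4 : ℝ) : ℂ) := by
      push_cast at this ⊢; exact this
    exact_mod_cast h3
  have h3 : ‖c‖ ^ 2 = 2 / 49 := by
    rw [← normSq_eq_norm_sq, normSq_apply, h.hc]; norm_num
  have h4 : ‖c‖ < 0.21 := by
    have := norm_nonneg c
    nlinarith
  have h5 : ‖α‖ + ‖β‖ < 0.75 := by
    nlinarith [sq_nonneg (‖α‖ - ‖β‖), norm_nonneg α, norm_nonneg β]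
  linarith

lemma not_axis {c α β : ℂ} (h : Ex c α β) {u : ℂ} (hu1 : ‖u‖ = 1) :
    ¬ (IsAxis (ellipse 0 2 1) 0 u ∧
      IsAxis (inner 0 2 1 c α β) (0 + 2 * c + 1 * conj c) u) := by
  rintro ⟨h1, h2⟩
  -- the direction of the axes of the outer ellipse
  have h3 : (3 : ℂ) ∈ ellipse 0 2 1 := ⟨1, by simp, by norm_num⟩
  obtain ⟨z, hz, hz2⟩ := (h1 3).1 h3
  have hc3 : conj (3 - 0 : ℂ) = 3 := by
    have := conj_ofReal 3
    simpa using this
  have hu : u ^ 2 * 3 = 2 * z + conj z := by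
    rw [hc3] at hz2
    linear_combination hz2
  have hsq : u ^ 2 = 1 ∨ u ^ 2 = -1 := by
    have n1 : ‖u ^ 2‖ ^ 2 = 1 := by rw [norm_pow, hu1]; norm_num
    have n2 : ‖z‖ ^ 2 = 1 := by rw [hz]; norm_num
    rw [← normSq_eq_norm_sq, normSq_apply] at n1 n2
    have hr := congrArg Complex.re hu
    have hi := congrArg Complex.im hu
    generalize u ^ 2 = v at *
    simp at hr hi
    have hy : z.im = 0 := by
      have e1 : v.re = z.re := by linarith
      have e2 : v.im = z.im / 3 := by linarith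
      rw [e1, e2] at n1
      have : z.im ^ 2 = 0 := by nlinarith
      exact pow_eq_zero_iff two_ne_zero |>.1 this
    have hvi : v.im = 0 := by rw [hy] at hi; linarith
    rw [hvi] at n1
    have hv : (v.re - 1) * (v.re + 1) = 0 := by linarith
    rcases mul_eq_zero.1 hv with e | e
    · left; apply Complex.ext
      · simp; linarith
      · simp [hvi]
    · right; apply Complex.ext
      · simp; linarith
      · simp [hvi]
  -- the inner ellipse
  set a := 2 * α + 1 * conj β with ha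
  set b := 2 * β + 1 * conj α with hb
  have him : (a * b).im ≠ 0 := by
    have := h.im
    rw [ha, hb, one_mul, one_mul]
    exact this
  have key : ∀ w : ℂ, w * conj w = 1 → (a * w + b * conj w) ^ 2 = conj ((a * w + b * conj w) ^ 2) := by
    intro w hw
    have h4 : (0 + 2 * c + 1 * conj c) + a * w + b * conj w ∈ inner 0 2 1 c α β :=
      ⟨w, norm_of_unimod hw, rfl⟩
    obtain ⟨v, hv1, hv2⟩ := (h2 _).1 h4
    have h5 : u ^ 2 * conj (a * w + b * conj w) = a * v + b * conj v := by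
      rw [← ha, ← hb] at hv2
      have e : (0 + 2 * c + 1 * conj c) + a * w + b * conj w - (0 + 2 * c + 1 * conj c)
        = a * w + b * conj w := by ring
      rw [e] at hv2
      linear_combination hv2
    obtain ⟨v', hv', h6⟩ : ∃ v' : ℂ, v' * conj v' = 1 ∧
        conj (a * w + b * conj w) = a * v' + b * conj v' := by
      have hv := unimod hv1
      rcases hsq with e | e
      · refine ⟨v, hv, ?_⟩
        rw [e] at h5; linear_combination h5
      · refine ⟨-v, ?_, ?_⟩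
        · rw [map_neg]; linear_combination hv
        · rw [e] at h5; rw [map_neg]; linear_combination -h5
    have h7 := congrArg conj h6
    simp only [map_add, map_mul, map_pow, conj_conj] at h6 h7 ⊢
    have h8 : ∀ x y w w' : ℂ, w * w' = 1 → x = a * w + b * w' → y = conj a * w' + conj b * w →
        (conj a * x - b * y) * (a * y - conj b * x) = (a * conj a - b * conj b) ^ 2 := by
      intro x y w w' hw hx hy
      rw [hx, hy]
      linear_combination (a * conj a - b * conj b) ^ 2 * hw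
    have k1 := h8 _ _ w (conj w) hw rfl rfl
    have k2 := h8 (conj a * conj w + conj b * w) (a * w + b * conj w) v' (conj v') hv'
      (by linear_combination h6) (by linear_combination h7)
    have k3 : (a * b - conj a * conj b) * ((a * w + b * conj w) ^ 2 - (conj a * conj w + conj b * w) ^ 2) = 0 := by
      linear_combination k1 - k2
    have k4 : a * b - conj a * conj b ≠ 0 := by
      intro e
      have e2 : conj (a * b) = a * b := by
        rw [map_mul]; linear_combination -e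
      exact him (conj_eq_iff_im.1 e2)
    exact sub_eq_zero.1 ((mul_eq_zero.1 k3).resolve_left k4)
  have q1 := key 1 (by simp)
  have q2 := key I (by simp)
  simp only [map_one, mul_one, conj_I, map_add, map_mul, map_pow, map_neg] at q1 q2
  have q3 : conj (a * b) = a * b := by
    rw [map_mul]
    have : (4 : ℂ) * (conj a * conj b) = 4 * (a * b) := by
      linear_combination -q1 - q2 + ((a - b) ^ 2 - (conj a - conj b) ^ 2) * I_sq
    linear_combination this / 4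
  exact him (conj_eq_iff_im.1 q3)

/-- **Poncelet triangles: invariant powers.**
(1) For every pair of ellipses there is a point whose power with respect to the circumcircle is the same
for all triangles of the family.
(2) For some pair of ellipses as in the problem there is no such point for the Euler circle.
(3) For every pair of ellipses there is such a point for the Euler circle, provided that a certain
inequality holds. -/
theorem result :
    (∀ c a b c' a' b' : ℂ, ‖a‖ ≠ ‖b‖ → ‖a'‖ ≠ ‖b'‖ →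
      ∃ (X : ℂ) (k : ℝ), ∀ P : Fin 3 → ℂ, Periodic (ellipse c a b) (ellipse c' a' b') P →
        ∀ (O : ℂ) (r : ℝ), IsCircumcircle P O r → power X O r = k) ∧
    (∃ c a b c' a' b' : ℂ, ‖a‖ ≠ ‖b‖ ∧ ‖a'‖ ≠ ‖b'‖ ∧ ellipse c' a' b' ⊆ inside c a b ∧ c ≠ c' ∧
      (∀ u : ℂ, ‖u‖ = 1 → ¬ (IsAxis (ellipse c a b) c u ∧ IsAxis (ellipse c' a' b') c' u)) ∧
      (∃ P : Fin 3 → ℂ, Periodic (ellipse c a b) (ellipse c' a' b') P) ∧
      ¬ ∃ (X : ℂ) (k : ℝ), ∀ P : Fin 3 → ℂ, Periodic (ellipse c a b) (ellipse c' a' b') P →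
        ∀ (N : ℂ) (r : ℝ), IsEulerCircle P N r → power X N r = k) ∧
    (∀ c a b c' a' b' : ℂ, ‖a‖ ≠ ‖b‖ → ‖a'‖ ≠ ‖b'‖ →
      ∃ d α β : ℂ, c' = c + a * d + b * conj d ∧ a' = a * α + b * conj β ∧
        b' = a * β + b * conj α ∧
        (‖a * conj b - (‖a‖ ^ 2 + ‖b‖ ^ 2 : ℝ) * conj (d ^ 2 - 4 * α * β)‖ ≠
            ‖a‖ * ‖b‖ * ‖d ^ 2 - 4 * α * β‖ →
          ∃ (X : ℂ) (k : ℝ), ∀ P : Fin 3 → ℂ, Periodic (ellipse c a b) (ellipse c' a' b') P →
            ∀ (N : ℂ) (r : ℝ), IsEulerCircle P N r → power X N r = k)) := by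
  refine ⟨?_, ?_, ?_⟩
  · intro c a b c' a' b' hab hab'
    obtain ⟨d, α, β, hαβ, rfl, rfl, rfl⟩ := normalise (c₀ := c) (c' := c') hab hab'
    exact q1_normal hab hαβ
  · obtain ⟨c, α, β, h⟩ := exists_example
    have hαβ := h.ne
    have hcay : 4 * (α * conj α + β * conj β) =
        1 + (c ^ 2 - 4 * α * β) * (conj c ^ 2 - 4 * conj α * conj β) - 2 * c * conj c := by
      rw [h.sum, h.m, h.mc, mul_assoc 2 c, mul_conj, normSq_apply, h.hc]
      norm_num
    have hm : ‖c ^ 2 - 4 * α * β‖ = 2 / 7 := by rw [h.m]; norm_num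
    have hsmall : 2 * ‖c‖ + ‖c ^ 2 - 4 * α * β‖ < 1 := by
      have h3 : ‖c‖ ^ 2 = 2 / 49 := by
        rw [← normSq_eq_norm_sq, normSq_apply, h.hc]; norm_num
      have h4 : ‖c‖ < 0.21 := by
        have := norm_nonneg c
        nlinarith
      rw [hm]; linarith
    have hex : ∀ z l : ℂ, z * conj z = 1 → l * conj l = 1 →
        l * (1 - 2 * conj c * z + (conj c ^ 2 - 4 * conj α * conj β) * z ^ 2) =
          z * (z ^ 2 - 2 * c * z + (c ^ 2 - 4 * α * β)) →
        ∃ P : Fin 3 → ℂ, Periodic (ellipse 0 2 1) (inner 0 2 1 c α β) P ∧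
          ∀ (ζ N : ℂ) (r : ℝ), IsEulerCircle P N r →
            4 * ((power (pt 0 2 1 ζ) N r : ℝ) : ℂ) = cst 2 1 c α β ζ
              + kap 2 1 c α β ζ * l + conj (kap 2 1 c α β ζ * l) := by
      intro z l hz hl hl2
      obtain ⟨z₂, z₃, u2, u3, h12, h13, h23, hrel, hlam, hper⟩ :=
        exists_triangle (c₀ := 0) norm_two_one hαβ hcay hsmall hz hl hl2
      refine ⟨_, hper, ?_⟩
      intro ζ N r hN
      rw [← hlam]
      exact power_euler (P := ![pt 0 2 1 z, pt 0 2 1 z₂, pt 0 2 1 z₃]) hz u2 u3 h12 h13 h23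
        rfl rfl rfl hrel hN
    have hcc : conj c = ⟨1 / 7, -1 / 7⟩ := by
      rw [h.hc]; apply Complex.ext <;> simp <;> norm_num
    obtain ⟨P1, hP1, f1⟩ := hex 1 ⟨45 / 53, -28 / 53⟩ (by simp)
      (by rw [mul_conj, normSq_apply]; norm_num)
      (by rw [h.m, h.mc, hcc, h.hc]; apply Complex.ext <;> simp <;> norm_num)
    obtain ⟨P2, hP2, f2⟩ := hex (-1) ⟨-117 / 125, -44 / 125⟩ (by simp)
      (by rw [mul_conj, normSq_apply]; norm_num)
      (by rw [h.m, h.mc, hcc, h.hc]; apply Complex.ext <;> simp <;> norm_num)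
    obtain ⟨P3, hP3, f3⟩ := hex I ⟨12 / 13, -5 / 13⟩ (by simp)
      (by rw [mul_conj, normSq_apply]; norm_num)
      (by rw [h.m, h.mc, hcc, h.hc]; apply Complex.ext <;> simp [pow_two] <;> norm_num)
    refine ⟨0, 2, 1, 0 + 2 * c + 1 * conj c, 2 * α + 1 * conj β, 2 * β + 1 * conj α, norm_two_one, ?_,
      inner_subset_inside h, ?_, fun u hu => not_axis h hu, ⟨P1, hP1⟩, ?_⟩
    · intro h0
      apply hαβ
      have e1 : (2 * α + 1 * conj β) * conj (2 * α + 1 * conj β)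
          - (2 * β + 1 * conj α) * conj (2 * β + 1 * conj α)
          = 3 * (α * conj α - β * conj β) := by
        simp only [map_add, map_mul, conj_conj, conj_two, map_one]
        ring
      rw [mul_conj, mul_conj, mul_conj, mul_conj, normSq_eq_norm_sq, normSq_eq_norm_sq,
        normSq_eq_norm_sq, normSq_eq_norm_sq, h0, sub_self] at e1
      have e2 : ‖α‖ ^ 2 - ‖β‖ ^ 2 = 0 := by
        have e3 : ((‖α‖ ^ 2 : ℝ) : ℂ) - ((‖β‖ ^ 2 : ℝ) : ℂ) = 0 := by
          linear_combination -(1 / 3) * e1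
        exact_mod_cast e3
      exact (sq_eq_sq₀ (norm_nonneg _) (norm_nonneg _)).1 (by linarith)
    · intro h0
      have := congrArg Complex.im h0
      rw [hcc, h.hc] at this
      norm_num at this
    · rintro ⟨X, k, hX⟩
      obtain ⟨ζ, hζ⟩ : ∃ ζ, X = pt 0 2 1 ζ := by
        refine ⟨(2 * X - conj X) / 3, ?_⟩
        have hc3 : conj (3 : ℂ) = 3 := by
          have := conj_ofReal 3
          simpa using this
        unfold pt
        rw [map_div₀, map_sub, map_mul, conj_conj, conj_two, hc3]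
        ring
      subst hζ
      have hv : ∀ (P : Fin 3 → ℂ) (l : ℂ), Periodic (ellipse 0 2 1) (inner 0 2 1 c α β) P →
          (∀ (ζ N : ℂ) (r : ℝ), IsEulerCircle P N r →
            4 * ((power (pt 0 2 1 ζ) N r : ℝ) : ℂ) = cst 2 1 c α β ζ
              + kap 2 1 c α β ζ * l + conj (kap 2 1 c α β ζ * l)) →
          (kap 2 1 c α β ζ * l).re = (4 * k - (cst 2 1 c α β ζ).re) / 2 := by
        intro P l hP hf
        obtain ⟨N, r, hN⟩ := exists_euler hP.indep
        have e1 := hf ζ N r hN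
        rw [hX P hP N r hN] at e1
        have e2 := congrArg Complex.re e1
        rw [add_re, add_re, conj_re] at e2
        simp only [mul_re, ofReal_re, ofReal_im, mul_zero, sub_zero, re_ofNat] at e2
        simp only [mul_re]
        linarith
      have hk := kappa_zero (hv P1 _ hP1 f1) (hv P2 _ hP2 f2) (hv P3 _ hP3 f3)
      unfold kap at hk
      rw [h.mc, hcc, conj_two, map_one] at hk
      have e := congrArg Complex.re hk
      simp at e
      linarith
  · intro c a b c' a' b' hab hab'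
    obtain ⟨d, α, β, hαβ, rfl, rfl, rfl⟩ := normalise (c₀ := c) (c' := c') hab hab'
    exact ⟨d, α, β, rfl, rfl, rfl, fun hgen => q2_normal hab hαβ hgen⟩

end Pool.Agent.Results.MP_d21a88_gt.PonceletPower
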